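import Pool.Agent.Lib.MP_2a341d_an.Null

/-! An `A₁` weight on the plane gives a doubling measure with the `(1,1)`-Poincare inequality. -/

namespace Pool.Agent.Lib.MP_2a341d_an.LC

open MeasureTheory Metric Set Filter Topology
open scoped ENNReal NNReal

theorem unit_speed_line (x v : ℝ × ℝ) (hv : ‖v‖ = 1) (L : ℝ) :
    HasUnitSpeedOn (fun t : ℝ => x + t • v) (Icc 0 L) := by
  have hiso : ∀ s t : ℝ, edist (x + s • v) (x + t • v) = edist s t := by
    intro s t
    rw [edist_dist, edist_dist, dist_add_left, dist_eq_norm, ← sub_smul, norm_smul, hv, mul_one,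
      dist_eq_norm]
  have hl : LipschitzWith 1 fun t : ℝ => x + t • v := fun s t => by simp [hiso]
  refine hasConstantSpeedOnWith_iff_ordered.mpr fun a ha b hb hab => le_antisymm ?_ ?_
  · have h1 := (hl.lipschitzOnWith (s := univ)).comp_eVariationOn_le (g := id)
      (s := Icc 0 L ∩ Icc a b) (mapsTo_univ _ _)
    have h2 := ((monotoneOn_id (s := Icc 0 L)).eVariationOn_eq ha hb).le
    rw [ENNReal.coe_one, one_mul] at h1
    simpa using h1.trans h2
  · have h1 := eVariationOn.edist_le (fun t : ℝ => x + t • v) (s := Icc 0 L ∩ Icc a b)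
      ⟨hb, hab, le_rfl⟩ ⟨ha, le_rfl, hab⟩
    rw [hiso, edist_dist, Real.dist_eq, abs_of_nonneg (sub_nonneg.mpr hab)] at h1
    simpa using h1

theorem segment_bound {f : ℝ × ℝ → ℝ} {g : ℝ × ℝ → ℝ≥0∞} (h : IsUpperGradient f g)
    (x y : ℝ × ℝ) :
    ‖f y - f x‖ₑ ≤ ENNReal.ofReal (dist y x) * ∫⁻ t in Icc (0 : ℝ) 1, g (x + t • (y - x)) := by
  rcases eq_or_ne y x with rfl | hne
  · simp
  have hL : 0 < ‖y - x‖ := norm_pos_iff.mpr (sub_ne_zero.mpr hne)
  have h1 := h.2 ‖y - x‖ (fun t => x + t • (‖y - x‖⁻¹ • (y - x))) hL.le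
    (unit_speed_line x _ (by rw [norm_smul, norm_inv, norm_norm, inv_mul_cancel₀ hL.ne']) _)
  simp only [smul_smul, mul_inv_cancel₀ hL.ne', one_smul, add_sub_cancel, zero_mul, zero_smul,
    add_zero] at h1
  have h2 := lintegral_image_eq_lintegral_abs_deriv_mul (s := Icc (0 : ℝ) 1)
    (f := fun t => ‖y - x‖ * t) (f' := fun _ => ‖y - x‖) measurableSet_Icc
    (fun t _ => by simpa using ((hasDerivAt_id t).const_mul ‖y - x‖).hasDerivWithinAt)
    (mul_right_injective₀ hL.ne').injOn (fun t => g (x + (t * ‖y - x‖⁻¹) • (y - x)))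
  rw [image_mul_left_Icc' hL, mul_zero, mul_one] at h2
  rw [h2, lintegral_const_mul' _ _ ENNReal.ofReal_ne_top, abs_of_pos hL] at h1
  rw [dist_eq_norm]
  refine h1.trans (le_of_eq ?_)
  congr 1
  refine lintegral_congr fun t => ?_
  rw [mul_comm ‖y - x‖ t, mul_assoc, mul_inv_cancel₀ hL.ne', mul_one]

theorem dev_le {α : Type*} [MeasurableSpace α] {μ : Measure α} [IsFiniteMeasure μ] {f : α → ℝ}
    (hf : Integrable f μ) (c : ℝ) :
    ∫⁻ x, ‖f x - ⨍ z, f z ∂μ‖ₑ ∂μ ≤ 2 * ∫⁻ x, ‖f x - c‖ₑ ∂μ := by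
  have h1 : ‖c - ⨍ z, f z ∂μ‖ₑ * μ univ ≤ ∫⁻ x, ‖f x - c‖ₑ ∂μ := by
    refine le_trans (le_of_eq ?_) (enorm_integral_le_lintegral_enorm (μ := μ) fun x => f x - c)
    rw [integral_sub hf (integrable_const c), integral_const, ← measure_smul_average μ f,
      ← smul_sub, enorm_smul, enorm_sub_rev, mul_comm, Real.enorm_eq_ofReal measureReal_nonneg,
      ofReal_measureReal]
  calc ∫⁻ x, ‖f x - ⨍ z, f z ∂μ‖ₑ ∂μ ≤ ∫⁻ x, ‖f x - c‖ₑ + ‖c - ⨍ z, f z ∂μ‖ₑ ∂μ := by
        refine lintegral_mono fun x => ?_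
        have := enorm_add_le (f x - c) (c - ⨍ z, f z ∂μ)
        rwa [sub_add_sub_cancel] at this
    _ = ∫⁻ x, ‖f x - c‖ₑ ∂μ + ‖c - ⨍ z, f z ∂μ‖ₑ * μ univ := by
        rw [lintegral_add_right _ measurable_const, lintegral_const]
    _ ≤ _ := by
        rw [two_mul]
        exact add_le_add le_rfl h1

theorem volume_ball2 (x : ℝ × ℝ) {r : ℝ} (hr : 0 < r) :
    volume (ball x r) = ENNReal.ofReal (4 * r ^ 2) := by
  rw [← ball_prod_same, Measure.volume_eq_prod, Measure.prod_prod, Real.volume_ball,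
    Real.volume_ball, ← ENNReal.ofReal_mul (by positivity)]
  congr 1
  ring

/-- The `A₁` condition with constant `C`. -/
def IsA1 (w : ℝ × ℝ → ℝ≥0∞) (C : ℝ≥0) : Prop :=
  ∀ (z p : ℝ × ℝ) (r : ℝ), p ∈ ball z r →
    volume.withDensity w (ball z r) ≤ C * ENNReal.ofReal (r ^ 2) * w p

variable {w : ℝ × ℝ → ℝ≥0∞} {C : ℝ≥0}

theorem IsA1.doubling (hA : IsA1 w C) : IsDoubling (volume.withDensity w) := by
  refine ⟨C, fun x r hr => ?_⟩
  have h0 : ENNReal.ofReal (4 * r ^ 2) ≠ 0 := by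
    simp only [ne_eq, ENNReal.ofReal_eq_zero, not_le]
    positivity
  rw [← ENNReal.mul_le_mul_iff_left h0 ENNReal.ofReal_ne_top]
  calc volume.withDensity w (ball x (2 * r)) * ENNReal.ofReal (4 * r ^ 2)
      = ∫⁻ _ in ball x r, volume.withDensity w (ball x (2 * r)) := by
        rw [setLIntegral_const, volume_ball2 x hr]
    _ ≤ ∫⁻ p in ball x r, C * ENNReal.ofReal (4 * r ^ 2) * w p := by
        refine setLIntegral_mono' measurableSet_ball fun p hp => ?_
        have := hA x p (2 * r) (ball_subset_ball (by linarith) hp)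
        rwa [show (2 * r) ^ 2 = 4 * r ^ 2 by ring] at this
    _ = _ := by
        rw [lintegral_const_mul' _ _ (ENNReal.mul_ne_top ENNReal.coe_ne_top ENNReal.ofReal_ne_top),
          withDensity_apply _ measurableSet_ball]
        ring

theorem homothety_bound (g : ℝ × ℝ → ℝ≥0∞) {c x : ℝ × ℝ} {r t : ℝ} (hx : x ∈ ball c r)
    (ht : t ∈ Ioc (0 : ℝ) 1) :
    ENNReal.ofReal (t ^ 2) * ∫⁻ y in ball c r, g (x + t • (y - x)) ≤
      ∫⁻ z in ball c r, (ball z (2 * r * t)).indicator (fun _ => g z) x := by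
  have hd : (t • ContinuousLinearMap.id ℝ (ℝ × ℝ)).det = t ^ 2 := by
    simp [ContinuousLinearMap.det, LinearMap.det_smul]
  have h1 := lintegral_image_eq_lintegral_abs_det_fderiv_mul volume (s := ball c r)
    (f := fun y : ℝ × ℝ => x + t • (y - x)) (f' := fun _ => t • ContinuousLinearMap.id ℝ (ℝ × ℝ))
    measurableSet_ball
    (fun y _ => ((((hasFDerivAt_id y).sub_const x).const_smul t).const_add x).hasFDerivWithinAt)
    (fun y _ z _ h => by
      have := smul_right_injective _ ht.1.ne' (add_left_cancel h)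
      exact sub_left_injective this) g
  rw [hd, abs_of_nonneg (sq_nonneg t), lintegral_const_mul' _ _ ENNReal.ofReal_ne_top] at h1
  rw [← h1]
  have h2 : (fun y : ℝ × ℝ => x + t • (y - x)) '' ball c r ⊆ ball x (2 * r * t) ∩ ball c r := by
    rintro _ ⟨y, hy, rfl⟩
    refine ⟨?_, (convex_ball c r).add_smul_sub_mem hx hy ⟨ht.1.le, ht.2⟩⟩
    rw [mem_ball, dist_self_add_left, norm_smul, Real.norm_of_nonneg ht.1.le, mul_comm]
    refine mul_lt_mul_of_pos_right ?_ ht.1
    rw [← dist_eq_norm]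
    linarith [dist_triangle_right y x c, mem_ball.mp hx, mem_ball.mp hy]
  refine (lintegral_mono_set h2).trans (le_of_eq ?_)
  rw [← Measure.restrict_restrict measurableSet_ball, ← lintegral_indicator measurableSet_ball]
  refine lintegral_congr fun z => ?_
  by_cases hz : z ∈ ball x (2 * r * t)
  · rw [indicator_of_mem hz, indicator_of_mem (mem_ball_comm.mp hz)]
  · rw [indicator_of_notMem hz, indicator_of_notMem fun h => hz (mem_ball_comm.mp h)]

theorem IsA1.slice (hw : Measurable w) (hA : IsA1 w C) {g : ℝ × ℝ → ℝ≥0∞} (hg : Measurable g)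
    (c : ℝ × ℝ) {r t : ℝ} (hr : 0 < r) (ht : t ∈ Ioc (0 : ℝ) 1) :
    ∫⁻ x in ball c r, (∫⁻ y in ball c r, g (x + t • (y - x))) ∂volume.withDensity w ≤
      C * ENNReal.ofReal (4 * r ^ 2) * ∫⁻ z in ball c r, g z ∂volume.withDensity w := by
  have h0 : ENNReal.ofReal (t ^ 2) ≠ 0 := by
    simp only [ne_eq, ENNReal.ofReal_eq_zero, not_le]
    exact pow_pos ht.1 2
  rw [← ENNReal.mul_le_mul_iff_right h0 ENNReal.ofReal_ne_top,
    ← lintegral_const_mul' _ _ ENNReal.ofReal_ne_top]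
  refine (setLIntegral_mono' measurableSet_ball fun x hx => homothety_bound g hx ht).trans ?_
  have hm : Measurable (Function.uncurry fun x z : ℝ × ℝ =>
      (ball z (2 * r * t)).indicator (fun _ => g z) x) := by
    have : (Function.uncurry fun x z : ℝ × ℝ => (ball z (2 * r * t)).indicator (fun _ => g z) x) =
        {q : (ℝ × ℝ) × ℝ × ℝ | dist q.1 q.2 < 2 * r * t}.indicator fun q => g q.2 := by
      ext q
      rfl
    rw [this]
    exact (hg.comp measurable_snd).indicator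
      (isOpen_lt continuous_dist continuous_const).measurableSet
  rw [lintegral_lintegral_swap hm.aemeasurable,
    setLIntegral_withDensity_eq_setLIntegral_mul _ hw hg measurableSet_ball, ← mul_assoc,
    ← lintegral_const_mul' _ _ (ENNReal.mul_ne_top ENNReal.ofReal_ne_top
      (ENNReal.mul_ne_top ENNReal.coe_ne_top ENNReal.ofReal_ne_top))]
  refine lintegral_mono fun z => ?_
  rw [lintegral_indicator_const measurableSet_ball]
  have h1 := hA z z (2 * r * t) (mem_ball_self (by have := ht.1; positivity))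
  rw [show (2 * r * t) ^ 2 = t ^ 2 * (4 * r ^ 2) by ring, ENNReal.ofReal_mul (sq_nonneg t)] at h1
  refine (mul_le_mul' le_rfl ((Measure.restrict_le_self _).trans h1)).trans (le_of_eq ?_)
  simp only [Pi.mul_apply]
  ring

theorem IsA1.poincare (hw : Measurable w) (hA : IsA1 w C) (hC : 0 < C)
    (hfin : ∀ x r, volume.withDensity w (ball x r) < ∞) : HasPoincare (volume.withDensity w) := by
  refine ⟨4 * C, 1, by positivity, le_rfl, fun f g c r hr hf hg => ?_⟩
  set m : Measure (ℝ × ℝ) := volume.withDensity w with hm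
  have : IsFiniteMeasure (m.restrict (ball c r)) := ⟨by simpa using hfin c r⟩
  have hi : Integrable f (m.restrict (ball c r)) :=
    (hf.integrableOn_isCompact (isCompact_closedBall c r)).mono_set ball_subset_closedBall
  have h0 : ENNReal.ofReal (4 * r ^ 2) ≠ 0 := by
    simp only [ne_eq, ENNReal.ofReal_eq_zero, not_le]
    positivity
  have hgm := hg.1
  have hK : Measurable fun q : ((ℝ × ℝ) × ℝ × ℝ) × ℝ => g (q.1.1 + q.2 • (q.1.2 - q.1.1)) := by
    fun_prop
  have hK2 : Measurable fun q : ((ℝ × ℝ) × ℝ) × ℝ × ℝ => g (q.1.1 + q.1.2 • (q.2 - q.1.1)) := by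
    fun_prop
  have hD : ∫⁻ y in ball c r, ∫⁻ x in ball c r,
      (∫⁻ t in Ioc (0 : ℝ) 1, g (x + t • (y - x))) ∂m ≤
        C * ENNReal.ofReal (4 * r ^ 2) * ∫⁻ z in ball c r, g z ∂m := by
    rw [← lintegral_lintegral_swap (f := fun x y : ℝ × ℝ =>
      ∫⁻ t in Ioc (0 : ℝ) 1, g (x + t • (y - x))) hK.lintegral_prod_right'.aemeasurable]
    have h1 : ∀ x : ℝ × ℝ, ∫⁻ y in ball c r, ∫⁻ t in Ioc (0 : ℝ) 1, g (x + t • (y - x)) =
        ∫⁻ t in Ioc (0 : ℝ) 1, ∫⁻ y in ball c r, g (x + t • (y - x)) := fun x =>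
      lintegral_lintegral_swap (Measurable.aemeasurable (by fun_prop))
    simp only [h1]
    rw [lintegral_lintegral_swap (f := fun (x : ℝ × ℝ) (t : ℝ) =>
      ∫⁻ y in ball c r, g (x + t • (y - x))) hK2.lintegral_prod_right'.aemeasurable]
    refine (setLIntegral_mono' measurableSet_Ioc fun t ht => hA.slice hw hgm c hr ht).trans ?_
    simp [hm]
  rw [one_mul, ← ENNReal.mul_le_mul_iff_left h0 ENNReal.ofReal_ne_top]
  calc (∫⁻ x in ball c r, ‖f x - ⨍ z in ball c r, f z ∂m‖ₑ ∂m) * ENNReal.ofReal (4 * r ^ 2)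
      = ∫⁻ _ in ball c r, ∫⁻ x in ball c r, ‖f x - ⨍ z in ball c r, f z ∂m‖ₑ ∂m := by
        rw [setLIntegral_const, volume_ball2 c hr]
    _ ≤ ∫⁻ y in ball c r, 2 * ENNReal.ofReal (2 * r) * ∫⁻ x in ball c r,
          (∫⁻ t in Ioc (0 : ℝ) 1, g (x + t • (y - x))) ∂m := by
        refine setLIntegral_mono' measurableSet_ball fun y hy => (dev_le hi (f y)).trans ?_
        rw [mul_assoc, ← lintegral_const_mul' _ _ ENNReal.ofReal_ne_top]
        refine mul_le_mul' le_rfl (setLIntegral_mono' measurableSet_ball fun x hx => ?_)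
        rw [enorm_sub_rev, setLIntegral_congr Ioc_ae_eq_Icc]
        refine (segment_bound hg x y).trans (mul_le_mul' (ENNReal.ofReal_le_ofReal ?_) le_rfl)
        linarith [dist_triangle_right y x c, mem_ball.mp hx, mem_ball.mp hy]
    _ ≤ 2 * ENNReal.ofReal (2 * r) *
          (C * ENNReal.ofReal (4 * r ^ 2) * ∫⁻ z in ball c r, g z ∂m) := by
        rw [lintegral_const_mul' _ _ (ENNReal.mul_ne_top (by simp) ENNReal.ofReal_ne_top)]
        exact mul_le_mul' le_rfl hD
    _ = _ := by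
        rw [ENNReal.ofReal_mul (by norm_num : (0 : ℝ) ≤ 2)]
        simp only [ENNReal.ofReal_ofNat, ENNReal.coe_mul, ENNReal.coe_ofNat]
        ring

end Pool.Agent.Lib.MP_2a341d_an.LC
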