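import Pool.Agent.Lib.MP_2a341d_an.LC.Slice

/-! The cusp domain and the weight that blows up along its boundary. -/

namespace Pool.Agent.Lib.MP_2a341d_an.LC

open MeasureTheory Metric Set Filter Topology
open scoped ENNReal NNReal

/-- The tent function. -/
def tent (x : ℝ) : ℝ := max 0 (min x (1 - x))

/-- The height of the domain. -/
def phi (x : ℝ) : ℝ := tent x ^ 4

theorem tent_nonneg (x : ℝ) : 0 ≤ tent x := le_max_left _ _

theorem tent_le_half (x : ℝ) : tent x ≤ 1 / 2 :=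
  max_le (by norm_num) (by linarith [min_le_left x (1 - x), min_le_right x (1 - x)])

theorem tent_pos {x : ℝ} : 0 < tent x ↔ x ∈ Ioo (0 : ℝ) 1 := by
  simp [tent]

theorem lipschitz_tent : LipschitzWith 1 tent := by
  have h1 : LipschitzWith 1 fun x : ℝ => 1 - x :=
    LipschitzWith.of_dist_le_mul fun x y => by rw [dist_sub_left, NNReal.coe_one, one_mul]
  have h2 := (LipschitzWith.id.min h1).const_max 0
  rw [max_self] at h2
  exact h2

theorem phi_nonneg (x : ℝ) : 0 ≤ phi x := pow_nonneg (tent_nonneg x) 4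

theorem phi_le_one (x : ℝ) : phi x ≤ 1 :=
  pow_le_one₀ (tent_nonneg x) (by linarith [tent_le_half x])

theorem phi_pos {x : ℝ} : 0 < phi x ↔ x ∈ Ioo (0 : ℝ) 1 := by
  rw [← tent_pos, phi]
  refine ⟨fun h => (tent_nonneg x).lt_of_ne fun e => ?_, fun h => pow_pos h 4⟩
  rw [← e] at h
  simp at h

theorem phi_zero : phi 0 = 0 := by simp [phi, tent]

theorem phi_le {x r : ℝ} (hr : 0 ≤ r) (hx : x ≤ r) : phi x ≤ r ^ 4 :=
  pow_le_pow_left₀ (tent_nonneg x) (max_le hr ((min_le_left _ _).trans hx)) 4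

theorem le_phi {x r : ℝ} (hr : 0 ≤ r) (hx : r ≤ x) (hx' : x ≤ 1 / 2) : r ^ 4 ≤ phi x :=
  pow_le_pow_left₀ hr (le_max_of_le_right (le_min hx (by linarith))) 4

theorem lipschitz_phi : LipschitzWith 1 phi := by
  refine LipschitzWith.of_dist_le_mul fun x y => ?_
  have h1 := lipschitz_tent.dist_le_mul x y
  have a0 := tent_nonneg x
  have a1 := tent_le_half x
  have b0 := tent_nonneg y
  have b1 := tent_le_half y
  refine le_trans ?_ h1
  rw [Real.dist_eq, Real.dist_eq, phi, phi, show tent x ^ 4 - tent y ^ 4 =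
    (tent x - tent y) * ((tent x + tent y) * (tent x ^ 2 + tent y ^ 2)) by ring, abs_mul]
  refine mul_le_of_le_one_right (abs_nonneg _) ?_
  rw [abs_of_nonneg (by positivity)]
  exact mul_le_one₀ (by linarith) (by positivity) (by nlinarith)

theorem continuous_phi : Continuous phi := lipschitz_phi.continuous

/-- The weight. -/
noncomputable def wt : ℝ × ℝ → ℝ≥0∞ :=
  (fun p => rho (p.2 - (fun _ => 0) p.1)) + fun p => rho (p.2 - phi p.1)

theorem measurable_graph {ψ : ℝ → ℝ} (hψ : Continuous ψ) :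
    Measurable fun p : ℝ × ℝ => rho (p.2 - ψ p.1) := measurable_rho.comp (by fun_prop)

theorem measurable_wt : Measurable wt :=
  (measurable_graph (ψ := fun _ => 0) continuous_const).add (measurable_graph continuous_phi)

theorem isA1_wt : IsA1 wt 40 :=
  IsA1.add (measurable_graph (ψ := fun _ => 0) continuous_const)
    (isA1_graph (ψ := fun _ => 0) ((LipschitzWith.const (0 : ℝ)).weaken zero_le_one))
    (isA1_graph lipschitz_phi)

theorem wt_finite {S : Set (ℝ × ℝ)} (hS : Bornology.IsBounded S) :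
    volume.withDensity wt S < ∞ := by
  obtain ⟨R, hR, h⟩ := hS.subset_ball_lt 1 0
  have h1 := isA1_wt 0 (0, 1) R (by simpa [Prod.norm_def] using hR)
  have h2 : wt (0, 1) = 2 := by
    simp only [wt, Pi.add_apply, phi_zero, sub_zero, rho_one]
    norm_num
  rw [h2] at h1
  exact ((measure_mono h).trans h1).trans_lt (by finiteness)

/-- The domain. -/
def dom : Set (ℝ × ℝ) := {p | 0 < p.2 ∧ p.2 < phi p.1}

/-- A closed set containing the domain. -/
def cdom : Set (ℝ × ℝ) := {p | p.1 ∈ Icc (0 : ℝ) 1 ∧ 0 ≤ p.2 ∧ p.2 ≤ phi p.1}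

/-- The boundary curve. -/
def rim : Set (ℝ × ℝ) :=
  (fun x : ℝ => (x, (fun _ => (0 : ℝ)) x)) '' Icc 0 1 ∪ (fun x : ℝ => (x, phi x)) '' Icc 0 1

theorem isOpen_dom : IsOpen dom :=
  (isOpen_lt continuous_const continuous_snd).inter
    (isOpen_lt continuous_snd (continuous_phi.comp continuous_fst))

theorem isClosed_cdom : IsClosed cdom :=
  (isClosed_Icc.preimage continuous_fst).inter ((isClosed_le continuous_const continuous_snd).inter
    (isClosed_le continuous_snd (continuous_phi.comp continuous_fst)))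

theorem dom_subset : dom ⊆ cdom := fun _ hp =>
  ⟨Ioo_subset_Icc_self (phi_pos.mp (hp.1.trans hp.2)), hp.1.le, hp.2.le⟩

theorem isBounded_cdom : Bornology.IsBounded cdom :=
  ((isCompact_Icc (a := (0 : ℝ)) (b := 1)).prod
    (isCompact_Icc (a := (0 : ℝ)) (b := 1))).isBounded.subset
    fun _ hp => ⟨hp.1, hp.2.1, hp.2.2.trans (phi_le_one _)⟩

theorem isConnected_dom : IsConnected dom := by
  have h1 : dom = (fun q : ℝ × ℝ => (q.1, q.2 * phi q.1)) '' (Ioo 0 1 ×ˢ Ioo 0 1) := by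
    ext p
    constructor
    · intro hp
      have h2 : 0 < phi p.1 := hp.1.trans hp.2
      exact ⟨(p.1, p.2 / phi p.1), ⟨phi_pos.mp h2, div_pos hp.1 h2, (div_lt_one h2).mpr hp.2⟩,
        by simp [div_mul_cancel₀ _ h2.ne']⟩
    · rintro ⟨q, hq, rfl⟩
      have h2 := phi_pos.mpr hq.1
      exact ⟨mul_pos hq.2.1 h2, mul_lt_of_lt_one_left h2 hq.2.2⟩
  have hc := continuous_phi
  rw [h1]
  exact ((isConnected_Ioo zero_lt_one).prod (isConnected_Ioo zero_lt_one)).image _
    (Continuous.continuousOn (by fun_prop))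

theorem isPreconnected_rim : IsPreconnected rim := by
  have hc := continuous_phi
  refine IsPreconnected.union ((0 : ℝ), (0 : ℝ)) ⟨0, left_mem_Icc.mpr zero_le_one, rfl⟩
    ⟨0, left_mem_Icc.mpr zero_le_one, by simp [phi_zero]⟩
    (isPreconnected_Icc.image _ (Continuous.continuousOn (by fun_prop)))
    (isPreconnected_Icc.image _ (Continuous.continuousOn (by fun_prop)))

theorem lipa_dom {p : ℝ × ℝ} (hp : p ∉ rim) : lipa (dom.indicator fun _ => (1 : ℝ)) p = 0 := by
  by_cases h : p ∈ cdom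
  · have h1 : p ∈ dom := by
      refine ⟨h.2.1.lt_of_ne fun e => hp (Or.inl ⟨p.1, h.1, Prod.ext rfl e⟩),
        h.2.2.lt_of_ne fun e => hp (Or.inr ⟨p.1, h.1, Prod.ext rfl e.symm⟩)⟩
    exact lipa_eq_zero (c := 1) (mem_of_superset (isOpen_dom.mem_nhds h1)
      fun q hq => indicator_of_mem hq _)
  · exact lipa_eq_zero (c := 0) (mem_of_superset (isClosed_cdom.isOpen_compl.mem_nhds h)
      fun q hq => indicator_of_notMem (fun h2 => hq (dom_subset h2)) _)

theorem tv_zero (m : Measure (ℝ × ℝ)) {U : Set (ℝ × ℝ)} (hU : IsOpen U) (h : ∀ p ∈ U, p ∉ rim) :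
    tvOpen m (dom.indicator fun _ => (1 : ℝ)) U = 0 := by
  refine le_antisymm (Ap.tvOpen_le fun e _ => ⟨dom.indicator fun _ => (1 : ℝ),
    locallyLipschitzOn_of_lipa fun p hp => ?_, by simp, ?_⟩) zero_le
  · rw [lipa_dom (h p hp)]
    exact ENNReal.zero_ne_top
  · rw [setLIntegral_congr_fun hU.measurableSet (g := fun _ => 0) fun p hp => lipa_dom (h p hp)]
    simp

theorem exists_strip {ψ : ℝ → ℝ} (hψ : Continuous ψ) {A : Set (ℝ × ℝ)} (hA : IsOpen A) {x : ℝ}
    (hx : x ∈ Icc (0 : ℝ) 1) (hxA : (x, ψ x) ∈ A) :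
    ∃ a b η : ℝ, a < b ∧ 0 < η ∧ strip ψ (Icc a b) (Icc (-η) η) ⊆ A ∧
      ∀ p ∈ strip ψ (Icc a b) (Icc (-η) η), |p.2 - ψ p.1| < phi p.1 := by
  have hc := continuous_phi
  have h1 : IsOpen {y : ℝ | (y, ψ y) ∈ A} := hA.preimage (by fun_prop)
  obtain ⟨y, hyA, hy⟩ := mem_closure_iff.mp (show x ∈ closure (Ioo (0 : ℝ) 1) by
    rwa [closure_Ioo zero_ne_one]) _ h1 hxA
  have h2 : IsOpen {q : ℝ × ℝ | (q.1, ψ q.1 + q.2) ∈ A ∧ |q.2| < phi q.1} :=
    (hA.preimage (f := fun q : ℝ × ℝ => (q.1, ψ q.1 + q.2)) (by fun_prop)).inter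
      (isOpen_lt (f := fun q : ℝ × ℝ => |q.2|) (g := fun q => phi q.1) (by fun_prop) (by fun_prop))
  obtain ⟨η, hη, h3⟩ := nhds_basis_closedBall.mem_iff.mp
    (h2.mem_nhds (x := (y, 0)) ⟨by simpa using hyA, by simpa using phi_pos.mpr hy⟩)
  have h4 : ∀ p ∈ strip ψ (Icc (y - η) (y + η)) (Icc (-η) η),
      p ∈ A ∧ |p.2 - ψ p.1| < phi p.1 := by
    intro p hp
    have h5 : (p.1, p.2 - ψ p.1) ∈ closedBall ((y, 0) : ℝ × ℝ) η := by
      rw [← closedBall_prod_same, Real.closedBall_eq_Icc, Real.closedBall_eq_Icc, zero_sub,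
        zero_add]
      exact hp
    simpa using h3 h5
  exact ⟨y - η, y + η, η, by linarith, hη, fun p hp => (h4 p hp).1, fun p hp => (h4 p hp).2⟩

theorem vol_pos_half {e : ℝ} (he : 0 < e) : volume (Ioi (0 : ℝ) ∩ Icc (-e) e) ≠ 0 := by
  have h : Ioo 0 e ⊆ Ioi (0 : ℝ) ∩ Icc (-e) e := fun _ h => ⟨h.1, by linarith [h.1], h.2.le⟩
  exact (((Measure.measure_Ioo_pos volume).mpr he).trans_le (measure_mono h)).ne'

theorem vol_neg_half {e : ℝ} (he : 0 < e) : volume (Iio (0 : ℝ) ∩ Icc (-e) e) ≠ 0 := by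
  have h : Ioo (-e) 0 ⊆ Iio (0 : ℝ) ∩ Icc (-e) e := fun _ h => ⟨h.2, h.1.le, by linarith [h.2]⟩
  exact (((Measure.measure_Ioo_pos volume).mpr (neg_neg_of_pos he)).trans_le (measure_mono h)).ne'

theorem tv_top_of_rim {A : Set (ℝ × ℝ)} (hA : IsOpen A) (h : (rim ∩ A).Nonempty)
    {F : ℝ × ℝ → ℝ} (hF1 : ∀ p ∈ A, p ∈ dom → F p = 1) (hF0 : ∀ p ∈ A, p ∉ dom → F p = 0) :
    tvOpen (volume.withDensity wt) F A = ∞ := by
  obtain ⟨_, ⟨x, hx, rfl⟩ | ⟨x, hx, rfl⟩, hxA⟩ := h
  · obtain ⟨a, b, η, hab, hη, h1, h2⟩ := exists_strip continuous_const hA hx hxA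
    refine tv_top continuous_const (fun p => le_self_add) hA hab hη h1 measurableSet_Ioi
      measurableSet_Iio (fun e => vol_pos_half) (fun e => vol_neg_half) (fun p hp => ?_)
      fun p hp => ?_
    · have h3 := strip_mono inter_subset_right hp
      have h4 := (abs_lt.mp (h2 p h3)).2
      have h5 : 0 < p.2 - 0 := hp.2.1
      exact hF1 p (h1 h3) ⟨by linarith, by linarith⟩
    · have h5 : p.2 - 0 < 0 := hp.2.1
      exact hF0 p (h1 (strip_mono inter_subset_right hp)) fun h6 => by linarith [h6.1]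
  · obtain ⟨a, b, η, hab, hη, h1, h2⟩ := exists_strip continuous_phi hA hx hxA
    refine tv_top continuous_phi (fun p => le_add_self) hA hab hη h1 measurableSet_Iio
      measurableSet_Ioi (fun e => vol_neg_half) (fun e => vol_pos_half) (fun p hp => ?_)
      fun p hp => ?_
    · have h3 := strip_mono inter_subset_right hp
      have h4 := (abs_lt.mp (h2 p h3)).1
      have h5 : p.2 - phi p.1 < 0 := hp.2.1
      exact hF1 p (h1 h3) ⟨by linarith, by linarith⟩
    · have h5 : 0 < p.2 - phi p.1 := hp.2.1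
      exact hF0 p (h1 (strip_mono inter_subset_right hp)) fun h6 => by linarith [h6.2]

theorem locQuasiMin_dom : LocQuasiMin (volume.withDensity wt) 1 dom univ := by
  intro x _
  refine ⟨ball x (1 / 2), isOpen_ball, mem_ball_self (by norm_num), subset_univ _,
    fun U hU hUV F G _ _ hF hG => ?_⟩
  rw [per, per, tv_eq_tvOpen hU, tv_eq_tvOpen hU]
  by_cases h : (rim ∩ U).Nonempty
  · have hK : IsClosed (closure F ∪ closure G) := isClosed_closure.union isClosed_closure
    have hKU : closure F ∪ closure G ⊆ U := union_subset hF.2 hG.2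
    have h1 : (rim ∩ (closure F ∪ closure G)ᶜ).Nonempty := by
      by_contra h2
      have h3 : ∀ y ∈ Icc (0 : ℝ) 1, dist ((y, 0) : ℝ × ℝ) x < 1 / 2 := fun y hy => by
        by_contra h4
        exact h2 ⟨(y, 0), Or.inl ⟨y, hy, rfl⟩, fun h5 => h4 (hUV.2 (subset_closure (hKU h5)))⟩
      have h4 := dist_triangle_right ((0, 0) : ℝ × ℝ) (1, 0) x
      have h5 : dist ((0, 0) : ℝ × ℝ) (1, 0) = 1 := by simp [Prod.dist_eq]
      linarith [h3 0 (left_mem_Icc.mpr zero_le_one), h3 1 (right_mem_Icc.mpr zero_le_one)]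
    have h2 := isPreconnected_rim U (closure F ∪ closure G)ᶜ hU hK.isOpen_compl
      (fun p _ => (em (p ∈ closure F ∪ closure G)).imp (fun h => hKU h) id) h h1
    have h3 := tv_top_of_rim (hU.inter hK.isOpen_compl) h2
      (F := ((dom ∪ F) \ G).indicator fun _ => (1 : ℝ))
      (fun p hp hd => indicator_of_mem (show p ∈ (dom ∪ F) \ G from
        ⟨Or.inl hd, fun h4 => hp.2 (Or.inr (subset_closure h4))⟩) _)
      (fun p hp hd => indicator_of_notMem
        (fun h4 => h4.1.elim hd fun h5 => hp.2 (Or.inl (subset_closure h5))) _)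
    rw [ENNReal.coe_one, one_mul]
    exact le_top.trans (h3.ge.trans (tvOpen_mono inter_subset_left))
  · rw [tv_zero _ hU fun p hp hr => h ⟨p, hr, hp⟩]
    exact zero_le

end Pool.Agent.Lib.MP_2a341d_an.LC
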