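import Pool.Agent.Lib.MP_2a341d_an.LC.Cusp

/-! The closure of the cusp domain is not an extension set. -/

namespace Pool.Agent.Lib.MP_2a341d_an.LC

open MeasureTheory Metric Set Filter Topology
open scoped ENNReal NNReal

theorem tip_graph {ψ : ℝ → ℝ} (hψ : Continuous ψ) {r : ℝ} (hr : 0 < r) {D : Set (ℝ × ℝ)}
    (hD : D ⊆ strip ψ (Icc 0 (2 * r)) (ball 0 ((5 * r ^ 2) ^ 2))) :
    ∫⁻ p in D, rho (p.2 - ψ p.1) ≤ ENNReal.ofReal (40 * r ^ 3) := by
  refine (lintegral_mono_set hD).trans ?_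
  rw [lintegral_strip hψ measurableSet_Icc measurableSet_ball (measurable_graph hψ)]
  simp only [add_sub_cancel_left]
  refine (lintegral_mono fun _ => lintegral_rho_ball (by positivity)).trans (le_of_eq ?_)
  rw [setLIntegral_const, Real.volume_Icc, ← ENNReal.ofReal_mul (by positivity)]
  congr 1
  ring

theorem tip_measure {r : ℝ} (hr : 0 < r) :
    volume.withDensity wt ({p | p.1 ≤ 2 * r} ∩ cdom) ≤ ENNReal.ofReal (80 * r ^ 3) := by
  have hm : MeasurableSet ({p : ℝ × ℝ | p.1 ≤ 2 * r} ∩ cdom) :=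
    ((isClosed_le continuous_fst continuous_const).inter isClosed_cdom).measurableSet
  have hb : ∀ p ∈ {p : ℝ × ℝ | p.1 ≤ 2 * r} ∩ cdom, phi p.1 < (5 * r ^ 2) ^ 2 := fun p hp =>
    (phi_le (by positivity) hp.1).trans_lt (by nlinarith [pow_pos hr 4])
  rw [withDensity_apply _ hm, show 80 * r ^ 3 = 40 * r ^ 3 + 40 * r ^ 3 by ring,
    ENNReal.ofReal_add (by positivity) (by positivity)]
  refine (lintegral_add_left (measurable_graph (ψ := fun _ => 0) continuous_const) _).le.trans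
    (add_le_add (tip_graph (ψ := fun _ => 0) continuous_const hr fun p hp => ?_)
      (tip_graph continuous_phi hr fun p hp => ?_))
  · refine ⟨⟨hp.2.1.1, hp.1⟩, ?_⟩
    rw [mem_ball_zero_iff, Real.norm_eq_abs, abs_lt]
    constructor <;> linarith [hb p hp, hp.2.2.1, hp.2.2.2]
  · refine ⟨⟨hp.2.1.1, hp.1⟩, ?_⟩
    rw [mem_ball_zero_iff, Real.norm_eq_abs, abs_lt]
    constructor <;> linarith [hb p hp, hp.2.2.1, hp.2.2.2]

/-- The test function: one left of `r`, zero right of `2 r`. -/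
noncomputable def ramp (r : ℝ≥0) (p : ℝ × ℝ) : ℝ := clamp 1 (2 - r⁻¹ * p.1)

theorem lipschitz_ramp (r : ℝ≥0) : LipschitzWith r⁻¹ (ramp r) := by
  have h1 : LipschitzWith r⁻¹ fun p : ℝ × ℝ => (2 : ℝ) - r⁻¹ * p.1 := by
    refine LipschitzWith.of_dist_le_mul fun p q => ?_
    rw [dist_sub_left, Real.dist_eq, ← mul_sub, abs_mul, abs_of_nonneg (by positivity),
      ← Real.dist_eq]
    exact mul_le_mul_of_nonneg_left (le_max_left _ _) (by positivity)
  have h2 := (lipschitz_clamp 1).comp h1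
  rw [one_mul] at h2
  exact h2

theorem ramp_zero {r : ℝ≥0} (hr : 0 < r) {p : ℝ × ℝ} (hp : 2 * r ≤ p.1) : ramp r p = 0 := by
  refine clamp_of_nonpos ?_
  have h : (0 : ℝ) < r := hr
  rw [NNReal.coe_inv, sub_nonpos, le_inv_mul_iff₀ h]
  linarith

theorem ramp_one {r : ℝ≥0} (hr : 0 < r) {p : ℝ × ℝ} (hp : p.1 ≤ r) : ramp r p = 1 := by
  refine clamp_of_ge zero_le_one ?_
  have h : (0 : ℝ) < r := hr
  have h2 : (r : ℝ)⁻¹ * p.1 ≤ 1 := by
    rw [inv_mul_le_iff₀ h]
    linarith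
  rw [NNReal.coe_inv]
  linarith

theorem enorm_ramp_le (r : ℝ≥0) (p : ℝ × ℝ) : ‖ramp r p‖ₑ ≤ 1 := by
  rw [ramp, Real.enorm_eq_ofReal (clamp_nonneg _ _)]
  exact ENNReal.ofReal_le_one.mpr (clamp_le zero_le_one _)

theorem closure_dom_subset : closure dom ⊆ cdom := closure_minimal dom_subset isClosed_cdom

theorem tip_integral {r : ℝ≥0} (hr : 0 < r) {h : ℝ × ℝ → ℝ≥0∞} {c : ℝ≥0∞} (hc : ∀ p, h p ≤ c)
    (h0 : ∀ p : ℝ × ℝ, 2 * r < p.1 → h p = 0) :
    ∫⁻ p in closure dom, h p ∂volume.withDensity wt ≤ c * (80 * r ^ 3 : ℝ≥0) := by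
  have hm : MeasurableSet {p : ℝ × ℝ | p.1 ≤ 2 * r} :=
    (isClosed_le continuous_fst continuous_const).measurableSet
  calc ∫⁻ p in closure dom, h p ∂volume.withDensity wt
      ≤ ∫⁻ p in cdom, {p : ℝ × ℝ | p.1 ≤ 2 * r}.indicator (fun _ => c) p ∂volume.withDensity wt := by
        refine (lintegral_mono_set closure_dom_subset).trans (lintegral_mono fun p => ?_)
        by_cases hp : p.1 ≤ 2 * r
        · rw [indicator_of_mem (show p ∈ {p : ℝ × ℝ | p.1 ≤ 2 * r} from hp)]
          exact hc p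
        · rw [h0 p (not_le.mp hp)]
          exact zero_le
    _ ≤ _ := by
        rw [lintegral_indicator_const hm, Measure.restrict_apply hm]
        refine mul_le_mul' le_rfl ((tip_measure hr).trans (le_of_eq ?_))
        rw [← ENNReal.ofReal_coe_nnreal]
        simp

theorem tv_ramp {r : ℝ≥0} (hr : 0 < r) :
    tv ((volume.withDensity wt).restrict (closure dom)) (ramp r) (closure dom) ≤
      (80 * r ^ 2 : ℝ≥0) := by
  have h1 : tv ((volume.withDensity wt).restrict (closure dom)) (ramp r) (closure dom) ≤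
      tvOpen ((volume.withDensity wt).restrict (closure dom)) (ramp r) univ :=
    iInf_le_of_le univ (iInf_le_of_le isOpen_univ (iInf_le _ (subset_univ _)))
  refine h1.trans (Ap.tvOpen_le fun e _ =>
    ⟨ramp r, (lipschitz_ramp r).locallyLipschitz.locallyLipschitzOn, by simp,
      le_trans ?_ le_self_add⟩)
  rw [Measure.restrict_univ]
  refine (tip_integral hr (c := (r⁻¹ : ℝ≥0)) (fun p => lipa_le univ_mem
    (lipschitz_ramp r).lipschitzOnWith) fun p hp => lipa_eq_zero (c := 0) ?_).trans (le_of_eq ?_)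
  · exact mem_of_superset ((isOpen_lt continuous_const continuous_fst).mem_nhds hp)
      fun q hq => ramp_zero hr (le_of_lt hq)
  · rw [← ENNReal.coe_mul, ENNReal.coe_inj]
    field_simp

theorem memBV_ramp {r : ℝ≥0} (hr : 0 < r) :
    MemBV (volume.withDensity wt) (closure dom) (ramp r) :=
  ⟨⟨(lipschitz_ramp r).continuous.aestronglyMeasurable,
    (tip_integral hr (enorm_ramp_le r) fun p hp => by simp [ramp_zero hr hp.le]).trans_lt
      (by finiteness)⟩, (tv_ramp hr).trans_lt ENNReal.coe_lt_top⟩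

theorem bvNorm_ramp {r : ℝ≥0} (hr : 0 < r) (hr1 : r ≤ 1) :
    bvNorm (volume.withDensity wt) (closure dom) (ramp r) ≤ (160 * r ^ 2 : ℝ≥0) := by
  refine (add_le_add (tip_integral hr (enorm_ramp_le r)
    fun p hp => by simp [ramp_zero hr hp.le]) (tv_ramp hr)).trans ?_
  rw [one_mul, ← ENNReal.coe_add, ENNReal.coe_le_coe]
  have h : r ^ 3 ≤ r ^ 2 := pow_le_pow_of_le_one zero_le hr1 (by norm_num)
  calc 80 * r ^ 3 + 80 * r ^ 2 ≤ 80 * r ^ 2 + 80 * r ^ 2 := by gcongr
    _ = _ := by ring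

theorem wt_ac : (volume : Measure (ℝ × ℝ)) ≪ volume.withDensity wt :=
  withDensity_absolutelyContinuous' measurable_wt.aemeasurable
    (Eventually.of_forall fun _ => (add_pos' (pos_iff_ne_zero.mpr (rho_ne_zero _))
      (pos_iff_ne_zero.mpr (rho_ne_zero _))).ne')

theorem le_bvNorm {r : ℝ≥0} (hr : 0 < r) (hr1 : (r : ℝ) ≤ 1 / 2) {F : ℝ × ℝ → ℝ}
    (hF : MemBV (volume.withDensity wt) univ F)
    (he : F =ᵐ[(volume.withDensity wt).restrict (closure dom)] ramp r) :
    ((r / 2 : ℝ≥0) : ℝ≥0∞) ≤ bvNorm (volume.withDensity wt) univ F := by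
  have hr' : (0 : ℝ) < r := hr
  have hac := wt_ac
  have hδ : (0 : ℝ) < (r / 2) ^ 4 := by positivity
  have hδ1 : ((r : ℝ) / 2) ^ 4 ≤ 1 := pow_le_one₀ (by positivity) (by linarith)
  have hw : ∀ p ∈ strip (fun _ => 0) (Icc ((r : ℝ) / 2) r) (Icc 0 1), 1 ≤ 1 * wt p := by
    intro p hp
    have h1 := one_le_rho (s := p.2 - 0) one_pos
      (by rw [abs_of_nonneg hp.2.1, one_pow]; exact hp.2.2)
    rw [ENNReal.ofReal_one] at h1
    exact h1.trans (mul_le_mul' le_rfl le_self_add)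
  have hS : strip (fun _ => 0) (Icc ((r : ℝ) / 2) r) (Ioo 0 ((r / 2) ^ 4)) ⊆ closure dom := by
    intro p hp
    have h1 : 0 < p.2 - 0 := hp.2.1
    have h2 : p.2 - 0 < (r / 2) ^ 4 := hp.2.2
    have h3 := le_phi (by positivity) hp.1.1 (hp.1.2.trans hr1)
    exact subset_closure ⟨by linarith, by linarith⟩
  have hm := measurableSet_strip (ψ := fun _ => 0) continuous_const
    (measurableSet_Icc (a := (r : ℝ) / 2) (b := r)) (measurableSet_Icc (a := (0 : ℝ)) (b := 1))
  have hFm : AEMeasurable F (volume.withDensity wt) := by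
    simpa using hF.1.aemeasurable
  have h1 := slice_bound (w := wt) (ψ := fun _ => 0) continuous_const (a := r / 2) (b := r)
    (S := Ioo 0 ((r / 2) ^ 4)) (T := Icc 0 1) measurableSet_Ioo measurableSet_Icc
    (Ioo_subset_Icc_self.trans (Icc_subset_Icc_right hδ1)) subset_rfl
    ((Measure.measure_Ioo_pos volume).mpr hδ).ne' (by simp) one_ne_zero ENNReal.one_ne_top hw
    isOpen_univ (subset_univ _) (F := F) ?_ ((hFm.mono_ac hac).restrict)
  · have h2 := lintegral_le_weight hm ENNReal.one_ne_top hw fun p => ‖F p‖ₑ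
    rw [one_mul] at h2
    simp only [Real.volume_Icc, sub_zero, ENNReal.ofReal_one, one_mul, mul_one] at h1
    rw [bvNorm, Measure.restrict_univ, tv_eq_tvOpen isOpen_univ, ← ENNReal.ofReal_coe_nnreal]
    refine le_trans (le_of_eq ?_) (h1.trans (add_le_add
      (h2.trans (setLIntegral_le_lintegral _ _)) le_rfl))
    congr 1
    push_cast
    ring
  · have h2 := ae_restrict_of_ae_restrict_of_subset hS ((hac.restrict (closure dom)).ae_le he)
    filter_upwards [h2, ae_restrict_mem (measurableSet_strip continuous_const measurableSet_Icc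
      measurableSet_Ioo)] with p hp hp'
    rw [hp, ramp_one hr hp'.1.2]

theorem not_extension : ¬ IsBVExtensionSet (volume.withDensity wt) (closure dom) := by
  rintro ⟨-, C, h⟩
  set r : ℝ≥0 := 1 / (400 * (C + 1)) with hr
  have hr0 : 0 < r := by positivity
  have hC : (0 : ℝ) ≤ C := C.2
  have hr2 : (r : ℝ) * (400 * (C + 1)) = 1 := by
    rw [hr]
    push_cast
    field_simp
  have hr' : (0 : ℝ) < r := hr0
  have hr1 : (r : ℝ) ≤ 1 / 2 := by nlinarith
  obtain ⟨F, h1, h2, h3⟩ := h (ramp r) (memBV_ramp hr0)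
  have h4 := (le_bvNorm hr0 hr1 h1 h2).trans (h3.trans (mul_le_mul' le_rfl
    (bvNorm_ramp hr0 (by rw [← NNReal.coe_le_coe]; push_cast; linarith))))
  rw [← ENNReal.coe_mul, ENNReal.coe_le_coe, ← NNReal.coe_le_coe] at h4
  push_cast at h4
  nlinarith

end Pool.Agent.Lib.MP_2a341d_an.LC
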