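import Pool.Agent.Lib.MP_2a341d_an.LC.Weight

/-! A lower bound for the total variation by vertical slicing. -/

namespace Pool.Agent.Lib.MP_2a341d_an.LC

open MeasureTheory Metric Set Filter Topology
open scoped ENNReal NNReal

theorem vertical_bound {g : ℝ × ℝ → ℝ} {K : ℝ≥0} (hg : LipschitzWith K g) (x y : ℝ)
    {c d s t : ℝ} (hs : s ∈ Icc c d) (ht : t ∈ Icc c d) :
    ‖g (x, y + s) - g (x, y + t)‖ₑ ≤ ∫⁻ u in Icc c d, lipa g (x, y + u) := by
  wlog hts : t ≤ s generalizing s t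
  · rw [enorm_sub_rev]
    exact this ht hs (le_of_not_ge hts)
  have h1 := (isUpperGradient_lipa hg).2 (s - t) (fun τ => (x, y + t) + τ • ((0, 1) : ℝ × ℝ))
    (sub_nonneg.mpr hts) (unit_speed_line _ _ (by simp [Prod.norm_def]) _)
  have h2 := lintegral_image_eq_lintegral_abs_deriv_mul (s := Icc (0 : ℝ) (s - t))
    (f := fun τ => t + τ) (f' := fun _ => 1) measurableSet_Icc
    (fun τ _ => ((hasDerivAt_id τ).const_add t).hasDerivWithinAt)
    (add_right_injective t).injOn (fun u => lipa g (x, y + u))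
  simp only [image_const_add_Icc, add_zero, add_sub_cancel, abs_one, ENNReal.ofReal_one,
    one_mul] at h2
  simp only [Prod.smul_mk, smul_eq_mul, mul_zero, mul_one, Prod.mk_add_mk, add_zero, add_assoc,
    add_sub_cancel] at h1
  exact (h1.trans h2.ge).trans (lintegral_mono_set (Icc_subset_Icc ht.1 hs.2))

theorem one_dim_bound {S T : Set ℝ} (hS : MeasurableSet S) (hT : MeasurableSet T)
    (hSf : volume S ≠ ∞) (A B : ℝ → ℝ≥0∞) (L : ℝ≥0∞)
    (h : ∀ s ∈ S, ∀ t ∈ T, 1 ≤ A s + (B t + L)) :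
    volume S * volume T ≤ volume T * (∫⁻ s in S, A s) +
      (volume S * (∫⁻ t in T, B t) + volume S * volume T * L) := by
  have h1 : ∀ t ∈ T, volume S ≤ volume S * B t + ((∫⁻ s in S, A s) + volume S * L) := by
    intro t ht
    calc volume S = ∫⁻ _ in S, 1 := (setLIntegral_one S).symm
      _ ≤ ∫⁻ s in S, A s + (B t + L) := setLIntegral_mono' hS fun s hs => h s hs t ht
      _ = _ := by
          rw [lintegral_add_right _ measurable_const, setLIntegral_const]
          ring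
  calc volume S * volume T = ∫⁻ _ in T, volume S := (setLIntegral_const _ _).symm
    _ ≤ ∫⁻ t in T, volume S * B t + ((∫⁻ s in S, A s) + volume S * L) :=
        setLIntegral_mono' hT h1
    _ = _ := by
        rw [lintegral_add_right _ measurable_const, setLIntegral_const,
          lintegral_const_mul' _ _ hSf]
        ring

variable {ψ : ℝ → ℝ} {I S T : Set ℝ} {c d : ℝ}

theorem strip_mono {J J' : Set ℝ} (h : J ⊆ J') : strip ψ I J ⊆ strip ψ I J' :=
  fun _ hp => ⟨hp.1, h hp.2⟩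

theorem lip_slice (hψ : Continuous ψ) (hI : MeasurableSet I) (hS : MeasurableSet S)
    (hT : MeasurableSet T) (hSJ : S ⊆ Icc c d) (hTJ : T ⊆ Icc c d) {g : ℝ × ℝ → ℝ} {K : ℝ≥0}
    (hg : LipschitzWith K g) :
    volume S * volume T * volume I ≤ volume T * (∫⁻ p in strip ψ I S, ‖g p - 1‖ₑ) +
      (volume S * (∫⁻ p in strip ψ I T, ‖g p‖ₑ) +
        volume S * volume T * ∫⁻ p in strip ψ I (Icc c d), lipa g p) := by
  have hSf : volume S ≠ ∞ := ne_top_of_le_ne_top measure_Icc_lt_top.ne (measure_mono hSJ)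
  have hTf : volume T ≠ ∞ := ne_top_of_le_ne_top measure_Icc_lt_top.ne (measure_mono hTJ)
  have hc := hg.continuous
  have hl := measurable_lipa g
  have m1 : Measurable fun q : ℝ × ℝ => ‖g (q.1, ψ q.1 + q.2) - 1‖ₑ :=
    Continuous.measurable (by fun_prop)
  have m2 : Measurable fun q : ℝ × ℝ => ‖g (q.1, ψ q.1 + q.2)‖ₑ :=
    Continuous.measurable (by fun_prop)
  rw [lintegral_strip hψ hI hS (by fun_prop), lintegral_strip hψ hI hT (by fun_prop),
    lintegral_strip hψ hI measurableSet_Icc hl, ← setLIntegral_const,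
    ← lintegral_const_mul' _ _ hTf, ← lintegral_const_mul' _ _ hSf,
    ← lintegral_const_mul' _ _ (ENNReal.mul_ne_top hSf hTf),
    ← lintegral_add_left (m2.lintegral_prod_right'.const_mul _),
    ← lintegral_add_left (m1.lintegral_prod_right'.const_mul _)]
  refine lintegral_mono fun x => one_dim_bound hS hT hSf _ _ _ fun s hs t ht => ?_
  have h1 := vertical_bound hg x (ψ x) (hSJ hs) (hTJ ht)
  calc (1 : ℝ≥0∞) = ‖(1 - g (x, ψ x + s)) + (g (x, ψ x + t) +
        (g (x, ψ x + s) - g (x, ψ x + t)))‖ₑ := by simp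
    _ ≤ _ := by
        refine (enorm_add_le _ _).trans (add_le_add (enorm_sub_rev _ _).le ?_)
        exact (enorm_add_le _ _).trans (add_le_add le_rfl h1)

theorem isCompact_strip (hψ : Continuous ψ) (a b c d : ℝ) :
    IsCompact (strip ψ (Icc a b) (Icc c d)) := by
  have h1 : strip ψ (Icc a b) (Icc c d) =
      (fun q : ℝ × ℝ => (q.1, ψ q.1 + q.2)) '' (Icc a b ×ˢ Icc c d) := by
    ext p
    constructor
    · intro hp
      exact ⟨(p.1, p.2 - ψ p.1), hp, by simp⟩
    · rintro ⟨q, hq, rfl⟩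
      exact ⟨hq.1, by simpa using hq.2⟩
  rw [h1]
  exact (isCompact_Icc.prod isCompact_Icc).image (by fun_prop)

theorem le_of_forall_add_mul {a b M : ℝ≥0∞} (hM : M ≠ ∞)
    (h : ∀ e : ℝ≥0, 0 < e → a ≤ b + M * e) : a ≤ b := by
  lift M to ℝ≥0 using hM
  refine ENNReal.le_of_forall_pos_le_add fun e he _ => (h (e / (M + 1)) (by positivity)).trans ?_
  refine add_le_add le_rfl ?_
  rw [← ENNReal.coe_mul, ENNReal.coe_le_coe, ← mul_div_assoc, div_le_iff₀ (by positivity),
    mul_comm]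
  exact mul_le_mul' le_rfl le_self_add

theorem slice_bound {w : ℝ × ℝ → ℝ≥0∞} (hψ : Continuous ψ) {a b : ℝ} (hS : MeasurableSet S)
    (hT : MeasurableSet T) (hSJ : S ⊆ Icc c d) (hTJ : T ⊆ Icc c d) (hS0 : volume S ≠ 0)
    (hT0 : volume T ≠ 0) {κ : ℝ≥0∞} (hκ0 : κ ≠ 0) (hκ : κ ≠ ∞)
    (hw : ∀ p ∈ strip ψ (Icc a b) (Icc c d), 1 ≤ κ * w p) {A : Set (ℝ × ℝ)} (hA : IsOpen A)
    (hRA : strip ψ (Icc a b) (Icc c d) ⊆ A) {F : ℝ × ℝ → ℝ}
    (hF1 : ∀ᵐ p ∂volume.restrict (strip ψ (Icc a b) S), F p = 1)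
    (hFm : AEMeasurable F (volume.restrict (strip ψ (Icc a b) T))) :
    volume T * volume (Icc a b) ≤ (∫⁻ p in strip ψ (Icc a b) T, ‖F p‖ₑ) +
      volume T * κ * tvOpen (volume.withDensity w) F A := by
  have hSf : volume S ≠ ∞ := ne_top_of_le_ne_top measure_Icc_lt_top.ne (measure_mono hSJ)
  have hTf : volume T ≠ ∞ := ne_top_of_le_ne_top measure_Icc_lt_top.ne (measure_mono hTJ)
  rcases eq_or_ne (tvOpen (volume.withDensity w) F A) ∞ with hτ | hτ
  · rw [hτ, ENNReal.mul_top (mul_ne_zero hT0 hκ0), add_top]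
    exact le_top
  have hR := measurableSet_strip hψ (measurableSet_Icc (a := a) (b := b))
    (measurableSet_Icc (a := c) (b := d))
  obtain ⟨Q, hQ, hRQ, hQA⟩ := exists_compact_between (isCompact_strip hψ a b c d) hA hRA
  rw [← ENNReal.mul_le_mul_iff_right hS0 hSf]
  refine le_of_forall_add_mul (M := (volume T + volume S + volume S * volume T) * κ)
    (by finiteness) fun e he => ?_
  obtain ⟨g, h1, h2, h3⟩ := exists_of_tvOpen_lt
    (ENNReal.lt_add_right hτ (show (e : ℝ≥0∞) ≠ 0 by exact_mod_cast he.ne'))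
    (isCompact_strip hψ a b c d) hRA he
  obtain ⟨g', ⟨L, hL⟩, -, h5⟩ := exists_good_extension hQ hQA h1
  have h6 : ∫⁻ p in strip ψ (Icc a b) (Icc c d), ‖g' p - F p‖ₑ ≤ κ * e := by
    refine (lintegral_le_weight hR hκ hw _).trans (mul_le_mul' le_rfl (le_trans ?_ h2))
    exact setLIntegral_mono' hR fun p hp => by rw [h5 (interior_subset (hRQ hp))]
  have h7 : ∫⁻ p in strip ψ (Icc a b) S, ‖g' p - 1‖ₑ ≤ κ * e := by
    refine le_trans (le_of_eq (lintegral_congr_ae ?_))
      ((lintegral_mono_set (strip_mono hSJ)).trans h6)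
    filter_upwards [hF1] with p hp
    rw [hp]
  have h8 : ∫⁻ p in strip ψ (Icc a b) T, ‖g' p‖ₑ ≤
      (∫⁻ p in strip ψ (Icc a b) T, ‖F p‖ₑ) + κ * e := by
    refine le_trans ?_ (add_le_add le_rfl ((lintegral_mono_set (strip_mono hTJ)).trans h6))
    rw [← lintegral_add_left' hFm.enorm]
    refine lintegral_mono fun p => ?_
    have := enorm_add_le (F p) (g' p - F p)
    rwa [add_sub_cancel] at this
  have h9 : ∫⁻ p in strip ψ (Icc a b) (Icc c d), lipa g' p ≤
      κ * (tvOpen (volume.withDensity w) F A + e) := by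
    refine (lintegral_le_weight hR hκ hw _).trans (mul_le_mul' le_rfl (le_trans ?_
      ((lintegral_mono_set hRA).trans h3.le)))
    refine setLIntegral_mono' hR fun p hp => (lipa_congr ?_).le
    exact mem_of_superset (mem_interior_iff_mem_nhds.mp (hRQ hp)) fun z hz => (h5 hz).symm
  rw [← mul_assoc]
  refine (lip_slice hψ measurableSet_Icc hS hT hSJ hTJ hL).trans
    ((add_le_add (mul_le_mul' le_rfl h7) (add_le_add (mul_le_mul' le_rfl h8)
      (mul_le_mul' le_rfl h9))).trans (le_of_eq ?_))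
  ring

theorem tv_top {w : ℝ × ℝ → ℝ≥0∞} (hψ : Continuous ψ) (hw : ∀ p, rho (p.2 - ψ p.1) ≤ w p)
    {A : Set (ℝ × ℝ)} (hA : IsOpen A) {a b η : ℝ} (hab : a < b) (hη : 0 < η)
    (hRA : strip ψ (Icc a b) (Icc (-η) η) ⊆ A) (hS : MeasurableSet S) (hT : MeasurableSet T)
    (hS0 : ∀ e, 0 < e → volume (S ∩ Icc (-e) e) ≠ 0)
    (hT0 : ∀ e, 0 < e → volume (T ∩ Icc (-e) e) ≠ 0) {F : ℝ × ℝ → ℝ}
    (hF1 : ∀ p ∈ strip ψ (Icc a b) (S ∩ Icc (-η) η), F p = 1)
    (hF0 : ∀ p ∈ strip ψ (Icc a b) (T ∩ Icc (-η) η), F p = 0) :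
    tvOpen (volume.withDensity w) F A = ∞ := by
  by_contra hτ
  have key : ∀ k : ℝ, 0 < k → k ^ 2 ≤ η →
      volume (Icc a b) ≤ ENNReal.ofReal k * tvOpen (volume.withDensity w) F A := by
    intro k hk hkη
    have hsub : Icc (-k ^ 2) (k ^ 2) ⊆ Icc (-η) η := Icc_subset_Icc (neg_le_neg hkη) hkη
    have hTm := measurableSet_strip hψ (measurableSet_Icc (a := a) (b := b))
      (hT.inter (measurableSet_Icc (a := -k ^ 2) (b := k ^ 2)))
    have hz : F =ᵐ[volume.restrict (strip ψ (Icc a b) (T ∩ Icc (-k ^ 2) (k ^ 2)))] fun _ => 0 :=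
      (ae_restrict_mem hTm).mono fun p hp => hF0 p (strip_mono (inter_subset_inter_right _ hsub) hp)
    have h1 := slice_bound (w := w) hψ (a := a) (b := b) (hS.inter measurableSet_Icc)
      (hT.inter measurableSet_Icc) inter_subset_right inter_subset_right
      (hS0 _ (pow_pos hk 2)) (hT0 _ (pow_pos hk 2)) (κ := ENNReal.ofReal k) (by simpa using hk)
      ENNReal.ofReal_ne_top
      (fun p hp => (one_le_rho hk (abs_le.mpr hp.2)).trans (mul_le_mul' le_rfl (hw p))) hA
      ((strip_mono hsub).trans hRA) (F := F)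
      ((ae_restrict_mem (measurableSet_strip hψ measurableSet_Icc
        (hS.inter measurableSet_Icc))).mono
        fun p hp => hF1 p (strip_mono (inter_subset_inter_right _ hsub) hp))
      (aemeasurable_const.congr hz.symm)
    rw [lintegral_congr_ae (hz.mono fun p hp => by rw [hp, enorm_zero]), lintegral_zero, zero_add,
      mul_assoc] at h1
    exact (ENNReal.mul_le_mul_iff_right (hT0 _ (pow_pos hk 2))
      (ne_top_of_le_ne_top measure_Icc_lt_top.ne (measure_mono inter_subset_right))).mp h1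
  have h2 : volume (Icc a b) ≤ 0 := by
    refine le_of_forall_add_mul hτ fun e he => ?_
    have h3 : 0 < min (e : ℝ) √η := lt_min he (Real.sqrt_pos.mpr hη)
    refine (key _ h3 ?_).trans ?_
    · calc min (e : ℝ) √η ^ 2 ≤ √η ^ 2 := pow_le_pow_left₀ h3.le (min_le_right _ _) 2
        _ = η := Real.sq_sqrt hη.le
    · rw [zero_add, mul_comm]
      exact mul_le_mul' le_rfl
        ((ENNReal.ofReal_le_ofReal (min_le_left _ _)).trans ENNReal.ofReal_coe_nnreal.le)
  simp only [Real.volume_Icc, nonpos_iff_eq_zero, ENNReal.ofReal_eq_zero] at h2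
  linarith

end Pool.Agent.Lib.MP_2a341d_an.LC
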