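import Pool.Agent.Lib.MP_2a341d_an.LC.A1

/-! The weight `|t|^(-1/2)` and its pull-backs along Lipschitz graphs. -/

namespace Pool.Agent.Lib.MP_2a341d_an.LC

open MeasureTheory Metric Set Filter Topology
open scoped ENNReal NNReal

/-- The weight `|t|^(-1/2)`, infinite at zero. -/
noncomputable def rho (t : ℝ) : ℝ≥0∞ := (ENNReal.ofReal √|t|)⁻¹

theorem measurable_rho : Measurable rho := by
  unfold rho
  fun_prop

theorem rho_ne_zero (t : ℝ) : rho t ≠ 0 := ENNReal.inv_ne_zero.mpr ENNReal.ofReal_ne_top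

theorem rho_one : rho 1 = 1 := by simp [rho]

theorem rho_le {s t k : ℝ} (hk : 0 < k) (h : |s| ≤ k ^ 2 * |t|) :
    rho t ≤ ENNReal.ofReal k * rho s := by
  have h1 : ENNReal.ofReal √|s| ≤ ENNReal.ofReal k * ENNReal.ofReal √|t| := by
    rw [← ENNReal.ofReal_mul hk.le]
    refine ENNReal.ofReal_le_ofReal ((Real.sqrt_le_sqrt h).trans (le_of_eq ?_))
    rw [Real.sqrt_mul (sq_nonneg k), Real.sqrt_sq hk.le]
  have h0 : ENNReal.ofReal k ≠ 0 := by simpa using hk
  have h2 := ENNReal.inv_le_inv.mpr h1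
  rw [ENNReal.mul_inv (Or.inl h0) (Or.inl ENNReal.ofReal_ne_top)] at h2
  calc rho t = ENNReal.ofReal k * ((ENNReal.ofReal k)⁻¹ * rho t) := by
        rw [← mul_assoc, ENNReal.mul_inv_cancel h0 ENNReal.ofReal_ne_top, one_mul]
    _ ≤ _ := mul_le_mul' le_rfl h2

theorem one_le_rho {s k : ℝ} (hk : 0 < k) (h : |s| ≤ k ^ 2) : 1 ≤ ENNReal.ofReal k * rho s := by
  rw [← rho_one]
  exact rho_le hk (by simpa using h)

theorem lintegral_rho_half {σ : ℝ} (hσ : |σ| = 1) (R : ℝ) :
    ∫⁻ t in (fun u : ℝ => σ * u ^ 2) '' Ioo 0 R, rho t = ENNReal.ofReal (2 * R) := by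
  have hσ0 : σ ≠ 0 := by
    rintro rfl
    simp at hσ
  rw [lintegral_image_eq_lintegral_abs_deriv_mul (f' := fun u => σ * (2 * u)) measurableSet_Ioo
    (fun u _ => by simpa using ((hasDerivAt_pow 2 u).const_mul σ).hasDerivWithinAt)
    (fun u hu v hv h => (pow_left_inj₀ hu.1.le hv.1.le two_ne_zero).mp (mul_left_cancel₀ hσ0 h)),
    setLIntegral_congr_fun measurableSet_Ioo (g := fun _ => 2), setLIntegral_const,
    Real.volume_Ioo, ENNReal.ofReal_mul zero_le_two]
  · simp
  · intro u hu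
    have h0 : ENNReal.ofReal u ≠ 0 := by simpa using hu.1
    simp only [rho, abs_mul, hσ, one_mul, abs_two, abs_of_pos hu.1, abs_of_nonneg (sq_nonneg u),
      Real.sqrt_sq hu.1.le]
    rw [ENNReal.ofReal_mul zero_le_two, mul_assoc,
      ENNReal.mul_inv_cancel h0 ENNReal.ofReal_ne_top]
    simp

theorem lintegral_rho_ball {R : ℝ} (hR : 0 < R) :
    ∫⁻ t in ball (0 : ℝ) (R ^ 2), rho t ≤ ENNReal.ofReal (4 * R) := by
  have h1 : ball (0 : ℝ) (R ^ 2) ⊆ ((fun u : ℝ => 1 * u ^ 2) '' Ioo 0 R ∪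
      (fun u : ℝ => -1 * u ^ 2) '' Ioo 0 R) ∪ {0} := by
    intro t ht
    rw [mem_ball_zero_iff, Real.norm_eq_abs] at ht
    have h2 : √|t| < R := (Real.sqrt_lt' hR).mpr ht
    rcases lt_trichotomy t 0 with h | h | h
    · refine Or.inl (Or.inr ⟨√|t|, ⟨Real.sqrt_pos.mpr (abs_pos.mpr h.ne), h2⟩, ?_⟩)
      simp only [Real.sq_sqrt (abs_nonneg t)]
      rw [abs_of_neg h]
      ring
    · exact Or.inr h
    · refine Or.inl (Or.inl ⟨√|t|, ⟨Real.sqrt_pos.mpr (abs_pos.mpr h.ne'), h2⟩, ?_⟩)
      simp only [Real.sq_sqrt (abs_nonneg t)]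
      rw [abs_of_pos h]
      ring
  refine (lintegral_mono_set h1).trans ((lintegral_union_le _ _ _).trans ?_)
  rw [setLIntegral_measure_zero {0} _ (by simp), add_zero]
  refine (lintegral_union_le _ _ _).trans (le_of_eq ?_)
  rw [lintegral_rho_half abs_one, lintegral_rho_half (by simp),
    ← ENNReal.ofReal_add (by positivity) (by positivity)]
  congr 1
  ring

theorem rho_A1 {a s r : ℝ} (hr : 0 < r) (h : |s - a| ≤ 3 * r) :
    ∫⁻ t in ball a r, rho t ≤ ENNReal.ofReal (20 * r) * rho s := by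
  have h1 : |s| ≤ |a| + 3 * r := by linarith [abs_sub_abs_le_abs_sub s a]
  rcases le_or_gt (2 * r) |a| with ha | ha
  · calc ∫⁻ t in ball a r, rho t ≤ ∫⁻ _ in ball a r, ENNReal.ofReal 3 * rho s := by
          refine setLIntegral_mono' measurableSet_ball fun t ht => rho_le (by norm_num) ?_
          have h2 : |a - t| < r := by rwa [mem_ball, dist_comm, Real.dist_eq] at ht
          linarith [abs_sub_abs_le_abs_sub a t]
      _ ≤ _ := by
          rw [setLIntegral_const, Real.volume_ball, mul_right_comm,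
            ← ENNReal.ofReal_mul (by norm_num)]
          exact mul_le_mul' (ENNReal.ofReal_le_ofReal (by linarith)) le_rfl
  · have hR : 0 < √(5 * r) := Real.sqrt_pos.mpr (by positivity)
    have hR2 : √(5 * r) ^ 2 = 5 * r := Real.sq_sqrt (by positivity)
    have h2 : ball a r ⊆ ball (0 : ℝ) (√(5 * r) ^ 2) := by
      refine ball_subset_ball' ?_
      rw [hR2, dist_zero_right, Real.norm_eq_abs]
      linarith
    calc ∫⁻ t in ball a r, rho t ≤ ENNReal.ofReal (4 * √(5 * r)) * 1 := by
          rw [mul_one]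
          exact (lintegral_mono_set h2).trans (lintegral_rho_ball hR)
      _ ≤ ENNReal.ofReal (4 * √(5 * r)) * (ENNReal.ofReal √(5 * r) * rho s) :=
          mul_le_mul' le_rfl (one_le_rho hR (by linarith))
      _ = _ := by
          rw [← mul_assoc, ← ENNReal.ofReal_mul (by positivity)]
          congr 2
          nlinarith

/-- The points with abscissa in `I` and height over the graph of `ψ` in `S`. -/
def strip (ψ : ℝ → ℝ) (I S : Set ℝ) : Set (ℝ × ℝ) := {p | p.1 ∈ I ∧ p.2 - ψ p.1 ∈ S}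

variable {ψ : ℝ → ℝ} {I S : Set ℝ}

theorem measurableSet_strip (hψ : Continuous ψ) (hI : MeasurableSet I) (hS : MeasurableSet S) :
    MeasurableSet (strip ψ I S) :=
  (measurable_fst hI).inter ((by fun_prop : Measurable fun p : ℝ × ℝ => p.2 - ψ p.1) hS)

theorem lintegral_strip (hψ : Continuous ψ) (hI : MeasurableSet I) (hS : MeasurableSet S)
    {h : ℝ × ℝ → ℝ≥0∞} (hh : Measurable h) :
    ∫⁻ p in strip ψ I S, h p = ∫⁻ x in I, ∫⁻ s in S, h (x, ψ x + s) := by
  have hm := measurableSet_strip hψ hI hS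
  rw [← lintegral_indicator hm, Measure.volume_eq_prod,
    lintegral_prod _ (hh.indicator hm).aemeasurable, ← lintegral_indicator hI]
  refine lintegral_congr fun x => ?_
  rw [← lintegral_add_left_eq_self _ (ψ x)]
  by_cases hx : x ∈ I
  · rw [indicator_of_mem hx, ← lintegral_indicator hS]
    refine lintegral_congr fun s => ?_
    by_cases hs : s ∈ S
    · rw [indicator_of_mem hs, indicator_of_mem (show (x, ψ x + s) ∈ strip ψ I S from
        ⟨hx, by simpa using hs⟩)]
    · rw [indicator_of_notMem hs, indicator_of_notMem fun h => hs (by simpa using h.2)]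
  · rw [indicator_of_notMem hx]
    refine (lintegral_congr fun s => ?_).trans lintegral_zero
    exact indicator_of_notMem (fun h => hx h.1) _

theorem isA1_graph (hψ : LipschitzWith 1 ψ) : IsA1 (fun p => rho (p.2 - ψ p.1)) 40 := by
  intro z p r hp
  have hr : 0 < r := pos_of_mem_ball hp
  have hc := hψ.continuous
  have hm : Measurable fun p : ℝ × ℝ => rho (p.2 - ψ p.1) := measurable_rho.comp (by fun_prop)
  rw [← ball_prod_same] at hp ⊢
  rw [withDensity_apply _ (measurableSet_ball.prod measurableSet_ball), Measure.volume_eq_prod,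
    ← Measure.prod_restrict, lintegral_prod _ hm.aemeasurable]
  calc ∫⁻ x in ball z.1 r, ∫⁻ y in ball z.2 r, rho (y - ψ x)
      ≤ ∫⁻ _ in ball z.1 r, ENNReal.ofReal (20 * r) * rho (p.2 - ψ p.1) := by
        refine setLIntegral_mono' measurableSet_ball fun x hx => ?_
        refine le_trans (le_of_eq ?_) (rho_A1 (a := z.2 - ψ x) hr ?_)
        · rw [← lintegral_indicator measurableSet_ball, ← lintegral_indicator measurableSet_ball,
            ← lintegral_sub_right_eq_self ((ball (z.2 - ψ x) r).indicator rho) (ψ x)]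
          refine lintegral_congr fun y => ?_
          simp only [indicator, mem_ball, dist_sub_right]
        · have h1 := hψ.dist_le_mul x p.1
          have h2 := dist_triangle_right x p.1 z.1
          have h3 := mem_ball.mp hx
          have h4 := mem_ball.mp hp.1
          have h5 := mem_ball.mp hp.2
          have h6 := abs_add_le (p.2 - z.2) (ψ x - ψ p.1)
          rw [NNReal.coe_one, one_mul, Real.dist_eq] at h1
          rw [Real.dist_eq] at h5
          rw [show p.2 - ψ p.1 - (z.2 - ψ x) = p.2 - z.2 + (ψ x - ψ p.1) by ring]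
          linarith
    _ = _ := by
        rw [setLIntegral_const, Real.volume_ball, mul_right_comm,
          ← ENNReal.ofReal_mul (by positivity), show 20 * r * (2 * r) = 40 * r ^ 2 by ring,
          ENNReal.ofReal_mul (by norm_num)]
        simp

theorem IsA1.add {w₁ w₂ : ℝ × ℝ → ℝ≥0∞} {C : ℝ≥0} (hw : Measurable w₁) (h₁ : IsA1 w₁ C)
    (h₂ : IsA1 w₂ C) : IsA1 (w₁ + w₂) C := by
  intro z p r hp
  rw [withDensity_add_left hw, Measure.add_apply, Pi.add_apply, mul_add]
  exact add_le_add (h₁ z p r hp) (h₂ z p r hp)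

theorem lintegral_le_weight {w : ℝ × ℝ → ℝ≥0∞} {R : Set (ℝ × ℝ)} (hR : MeasurableSet R)
    {κ : ℝ≥0∞} (hκ : κ ≠ ∞) (h : ∀ p ∈ R, 1 ≤ κ * w p) (f : ℝ × ℝ → ℝ≥0∞) :
    ∫⁻ p in R, f p ≤ κ * ∫⁻ p in R, f p ∂volume.withDensity w := by
  have h1 : volume.restrict R ≤ κ • (volume.withDensity w).restrict R := by
    refine Measure.le_iff.mpr fun s hs => ?_
    rw [Measure.smul_apply, Measure.restrict_apply hs, Measure.restrict_apply hs,
      withDensity_apply _ (hs.inter hR), smul_eq_mul, ← lintegral_const_mul' _ _ hκ,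
      ← setLIntegral_one]
    exact setLIntegral_mono' (hs.inter hR) fun p hp => h p hp.2
  refine (lintegral_mono' h1 le_rfl).trans (le_of_eq ?_)
  rw [lintegral_smul_measure, smul_eq_mul]

end Pool.Agent.Lib.MP_2a341d_an.LC
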